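import Pool.Agent.H42U.Inst
import Pool.Agent.Helper49.UM.Lvl
import Pool.Agent.Helper49.UM.Scale

/-!
The online algorithm on the sites for the time-dependent weights.
-/

namespace Pool.Agent.H42U

open Finset Pool.Agent.Helper8.OT Pool.Agent.Helper49.UM

variable {V : Type} [Fintype V] [DecidableEq V]

private theorem wgt_eq {lev : V → V → ℕ} {a c : V → ℕ} {N : ℕ} {u u' s s' : ℕ → V} {t : ℕ}
    (hu : ∀ r < t, u r = u' r) (hs : ∀ r < t, s r = s' r) :
    wgt lev a c N u s t = wgt lev a c N u' s' t := by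
  funext k i
  unfold wgt amt
  have h1 : ∀ v : Finset V, ld u t v = ld u' t v := fun v => ld_congr hu v
  have h2 : ∀ v : Finset V, fl u s t v = fl u' s' t v := fun v => fl_congr hu hs v
  simp only [h1, h2]

/-- Admissibility at time `t` only depends on the requests `r ≤ t` and the sites used before. -/
private theorem okw_congr {lev : V → V → ℕ} {a c : V → ℕ} {N : ℕ} {u u' s s' : ℕ → V} {t : ℕ}
    (hu : ∀ r ≤ t, u r = u' r) (hs : ∀ r < t, s r = s' r) {x : V}
    (h : OKw lev c (wgt lev a c N u s t) u s t x) :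
    OKw lev c (wgt lev a c N u' s' t) u' s' t x := by
  have h1 : ∀ v : Finset V, ld s t v = ld s' t v := fun v => ld_congr hs v
  have h2 : ∀ v : Finset V, fl u s t v = fl u' s' t v := fun v =>
    fl_congr (fun r hr => hu r hr.le) hs v
  have h3 : u t = u' t := hu t le_rfl
  rw [wgt_eq (fun r hr => hu r hr.le) hs] at h
  obtain ⟨hf, ho, hb⟩ := h
  refine ⟨?_, ?_, ?_⟩
  · rw [← h1]
    exact hf
  · intro k hk
    rw [← h1, ← h3]
    rw [← h3] at hk
    exact ho k hk
  · intro k i hk hi hl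
    rw [← h2, ← h2]
    rw [← h3] at hk
    rw [← h1] at hl
    exact hb k i hk hi hl

/-- The algorithm: choose an admissible site, by recursion on the time. -/
private noncomputable def alW [Nonempty V] (lev : V → V → ℕ) (a c : V → ℕ) (N : ℕ) (u : ℕ → V)
    (t : ℕ) : V :=
  Classical.epsilon fun x => OKw lev c
    (wgt lev a c N u (fun r => if _h : r < t then alW lev a c N u r else u r) t) u
    (fun r => if _h : r < t then alW lev a c N u r else u r) t x
termination_by t

private theorem alW_eq [Nonempty V] (lev : V → V → ℕ) (a c : V → ℕ) (N : ℕ) (u : ℕ → V) (t : ℕ) :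
    alW lev a c N u t = Classical.epsilon fun x =>
      OKw lev c (wgt lev a c N u (alW lev a c N u) t) u (alW lev a c N u) t x := by
  rw [alW]
  congr 1
  funext x
  refine propext ⟨?_, ?_⟩
  · refine okw_congr (fun r _ => rfl) ?_
    intro r hr
    simp [hr]
  · refine okw_congr (fun r _ => rfl) ?_
    intro r hr
    simp [hr]

private theorem alW_causal [Nonempty V] (lev : V → V → ℕ) (a c : V → ℕ) (N : ℕ) (u u' : ℕ → V)
    (t : ℕ) (h : ∀ r ≤ t, u r = u' r) : alW lev a c N u t = alW lev a c N u' t := by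
  induction t using Nat.strong_induction_on with
  | _ t ih =>
    rw [alW_eq, alW_eq]
    have hs : ∀ r < t, alW lev a c N u r = alW lev a c N u' r := fun r hr =>
      ih r hr (fun q hq => h q (hq.trans hr.le))
    congr 1
    funext x
    refine propext ⟨?_, ?_⟩
    · exact okw_congr h hs
    · exact okw_congr (fun r hr => (h r hr).symm) (fun r hr => (hs r hr).symm)

private theorem alW_ok [Nonempty V] {lev : V → V → ℕ} (hlev : IsUlt lev) (K : ℕ)
    (hK : ∀ i j, lev i j ≤ K) {a c : V → ℕ} (hac : ∀ i, a i < c i) (N : ℕ) (u : ℕ → V) (r : ℕ)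
    (hr : r < ∑ i, c i) : OKw lev c (wgt lev a c N u (alW lev a c N u) r) u
      (alW lev a c N u) r (alW lev a c N u r) := by
  induction r using Nat.strong_induction_on with
  | _ r ih =>
    have hex := exists_okw hlev K hK c (wgt lev a c N u (alW lev a c N u) r)
      (fun k i => wgt_pos hlev hac N u _ r k i)
      (fun k i j h => wgt_congr hlev a c N u _ r k i j h) u (alW lev a c N u) r
      (fun i => ok_le (fun q hq => (ih q hq (hq.trans hr)).ok) i) hr
    have h1 := Classical.epsilon_spec hex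
    rw [← alW_eq] at h1
    exact h1

/-- The factor. -/
private theorem fac_le (N : ℕ) :
    26 + 8 * Real.log (8 * (N + 1)) ≤ 43 + 8 * Real.log ((N : ℝ) + 1) := by
  have h1 : Real.log (8 * ((N : ℝ) + 1)) = 3 * Real.log 2 + Real.log ((N : ℝ) + 1) := by
    rw [Real.log_mul (by norm_num) (by positivity)]
    congr 1
    rw [show (8 : ℝ) = 2 ^ 3 by norm_num, Real.log_pow]
    norm_num
  rw [h1]
  have h2 := Real.log_two_lt_d9
  linarith

theorem core [Nonempty V] {lev : V → V → ℕ} (hlev : IsUlt lev) (K : ℕ)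
    (hK : ∀ i j, lev i j ≤ K) (δ : ℕ → ℝ) (hδz : δ 0 = 0) (hδ0 : ∀ k, 0 ≤ δ k)
    (a c : V → ℕ) (hac : ∀ i, a i < c i) (N : ℕ)
    (hN : ∀ S : Finset V, (∀ j ∈ S, 2 * ∑ i ∈ S, ((c i : ℝ) - a i) ≤ a j) → S.card ≤ N)
    (hδ : ∀ k, 1 ≤ k → 2 * (44 + 8 * Real.log ((N : ℝ) + 1)) * δ k ≤ δ (k + 1)) :
    ∃ S : (ℕ → V) → ℕ → V, (∀ u u' t, (∀ r ≤ t, u r = u' r) → S u t = S u' t) ∧
      ∀ u n, n ≤ ∑ i, a i →
        (∀ i, ((range n).filter (fun r => S u r = i)).card ≤ c i) ∧
        ∀ σ : ℕ → V, (∀ i, ((range n).filter (fun r => σ r = i)).card ≤ a i) →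
          ∑ r ∈ range n, δ (lev (u r) (S u r)) ≤
            4 * (44 + 8 * Real.log ((N : ℝ) + 1)) *
              ∑ r ∈ range n, δ (lev (u r) (σ r)) := by
  have hlog : 0 ≤ Real.log ((N : ℝ) + 1) := Real.log_nonneg (by
    have : (0 : ℝ) ≤ N := Nat.cast_nonneg N
    linarith)
  have hasum : ∑ i, a i ≤ ∑ i, c i := sum_le_sum (fun i _ => (hac i).le)
  refine ⟨alW lev a c N, fun u u' t h => alW_causal lev a c N u u' t h, ?_⟩
  intro u n hn
  have hokw : ∀ r < n, OKw lev c (wgt lev a c N u (alW lev a c N u) r) u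
      (alW lev a c N u) r (alW lev a c N u r) := fun r hr =>
    alW_ok hlev K hK hac N u r (hr.trans_le (hn.trans hasum))
  have hok : ∀ r < n, OK lev c (fun _ => 0) u (alW lev a c N u) r (alW lev a c N u r) :=
    fun r hr => (hokw r hr).ok
  constructor
  · intro i
    have h1 := ok_le hok i
    unfold ld at h1
    simpa only [mem_singleton] using h1
  · intro σ hσ
    have h1 := cost hlev K hK δ hδz hδ0 (43 + 8 * Real.log ((N : ℝ) + 1)) (by linarith)
      (by
        intro k hk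
        have := hδ k hk
        calc 2 * (1 + (43 + 8 * Real.log ((N : ℝ) + 1))) * δ k
            = 2 * (44 + 8 * Real.log ((N : ℝ) + 1)) * δ k := by ring
          _ ≤ _ := this)
      (fun i => (hac i).le) hok
      (by
        intro k P hP
        refine (bal_le hlev hac hN hokw hP).trans ?_
        refine mul_le_mul_of_nonneg_right (fac_le N) ?_
        exact add_nonneg (sum_nonneg fun _ _ => le_max_left _ _) (Nat.cast_nonneg _)) σ hσ
    calc _ ≤ _ := h1
      _ = _ := by ring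

/-- The algorithm for a finite ultrametric space of sites whose requests are sites. -/
theorem alg [Nonempty V] (U : V → V → ℝ) (h0 : ∀ i, U i i = 0) (hpos : ∀ i j, i ≠ j → 0 < U i j)
    (hsymm : ∀ i j, U i j = U j i) (hult : ∀ i j k, U i k ≤ max (U i j) (U j k))
    (a c : V → ℕ) (hac : ∀ i, a i < c i) (N : ℕ)
    (hN : ∀ S : Finset V, (∀ j ∈ S, 2 * ∑ i ∈ S, ((c i : ℝ) - a i) ≤ a j) → S.card ≤ N) :
    ∃ S : (ℕ → V) → ℕ → V, (∀ u u' t, (∀ r ≤ t, u r = u' r) → S u t = S u' t) ∧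
      ∀ u n, n ≤ ∑ i, a i →
        (∀ i, ((range n).filter (fun r => S u r = i)).card ≤ c i) ∧
        ∀ σ : ℕ → V, (∀ i, ((range n).filter (fun r => σ r = i)).card ≤ a i) →
          ∑ r ∈ range n, U (u r) (S u r) ≤
            8 * (44 + 8 * Real.log ((N : ℝ) + 1)) ^ 2 * ∑ r ∈ range n, U (u r) (σ r) := by
  have hlog : 0 ≤ Real.log ((N : ℝ) + 1) := Real.log_nonneg (by
    have : (0 : ℝ) ≤ N := Nat.cast_nonneg N
    linarith)
  set H : ℝ := 44 + 8 * Real.log ((N : ℝ) + 1) with hH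
  have hH2 : 2 ≤ H := by rw [hH]; linarith
  obtain ⟨lev, K, δ, hlev, hK, hδz, hδ0, hδ, hU⟩ :=
    scale U h0 hpos hsymm hult (2 * H) (by linarith)
  obtain ⟨S, hS1, hS2⟩ := core hlev K hK δ hδz hδ0 a c hac N hN hδ
  refine ⟨S, hS1, ?_⟩
  intro u n hn
  obtain ⟨h1, h2⟩ := hS2 u n hn
  refine ⟨h1, ?_⟩
  intro σ hσ
  have h3 := h2 σ hσ
  rw [← hH] at h3
  have h4 : ∑ r ∈ range n, U (u r) (S u r) ≤ ∑ r ∈ range n, δ (lev (u r) (S u r)) :=
    sum_le_sum (fun r _ => (hU (u r) (S u r)).1)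
  have h5 : ∑ r ∈ range n, δ (lev (u r) (σ r)) ≤ 2 * H * ∑ r ∈ range n, U (u r) (σ r) := by
    rw [mul_sum]
    exact sum_le_sum (fun r _ => (hU (u r) (σ r)).2)
  calc ∑ r ∈ range n, U (u r) (S u r) ≤ _ := h4
    _ ≤ _ := h3
    _ ≤ 4 * H * (2 * H * ∑ r ∈ range n, U (u r) (σ r)) :=
        mul_le_mul_of_nonneg_left h5 (by linarith)
    _ = 8 * H ^ 2 * ∑ r ∈ range n, U (u r) (σ r) := by ring

/-- The levels of an ultrametric whose values are separated by the factor `lam`. -/
private theorem rank (U : V → V → ℝ) (h0 : ∀ i, U i i = 0) (hpos : ∀ i j, i ≠ j → 0 < U i j)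
    (hsymm : ∀ i j, U i j = U j i) (hult : ∀ i j k, U i k ≤ max (U i j) (U j k))
    (lam : ℝ) (hlam : 1 ≤ lam)
    (hsep : ∀ i j k l, 0 < U i j → U i j < U k l → lam * U i j ≤ U k l) :
    ∃ (lev : V → V → ℕ) (K : ℕ) (δ : ℕ → ℝ), IsUlt lev ∧ (∀ i j, lev i j ≤ K) ∧ δ 0 = 0 ∧
      (∀ k, 0 ≤ δ k) ∧ (∀ k, 1 ≤ k → lam * δ k ≤ δ (k + 1)) ∧
      ∀ i j, δ (lev i j) = U i j := by
  classical
  set W : Finset ℝ := (univ.image fun p : V × V => U p.1 p.2).filter (fun x => 0 < x) with hW
  have hWm : ∀ x, x ∈ W ↔ (∃ i j, U i j = x) ∧ 0 < x := by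
    intro x
    simp [hW]
  set e : Fin W.card ↪o ℝ := W.orderEmbOfFin rfl with he
  have heW : ∀ q, e q ∈ W := fun q => W.orderEmbOfFin_mem rfl q
  have hepos : ∀ q, 0 < e q := fun q => ((hWm _).1 (heW q)).2
  have hesep : ∀ q q', q < q' → lam * e q ≤ e q' := by
    intro q q' hq
    obtain ⟨⟨i, j, hij⟩, h1⟩ := (hWm _).1 (heW q)
    obtain ⟨⟨k, l, hkl⟩, h2⟩ := (hWm _).1 (heW q')
    have h3 : e q < e q' := e.strictMono hq
    rw [← hij] at h1 h3 ⊢
    rw [← hkl] at h3 ⊢
    exact hsep i j k l h1 h3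
  set M : ℝ := 1 + ∑ q, e q with hM
  have heM : ∀ q, e q ≤ M := by
    intro q
    have := Finset.single_le_sum (f := fun q => e q) (fun q _ => (hepos q).le) (mem_univ q)
    linarith
  have hM1 : 1 ≤ M := by
    have : 0 ≤ ∑ q, e q := Finset.sum_nonneg fun q _ => (hepos q).le
    linarith
  set δ : ℕ → ℝ := fun k => if k = 0 then 0 else
    if h : k - 1 < W.card then e ⟨k - 1, h⟩ else M * lam ^ k with hδ
  have hlam0 : 0 ≤ lam := by linarith
  have hδs : ∀ k, δ (k + 1) = if h : k < W.card then e ⟨k, h⟩ else M * lam ^ (k + 1) := by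
    intro k
    simp only [hδ, Nat.add_sub_cancel, Nat.succ_ne_zero, if_false, Nat.add_eq_zero_iff,
      one_ne_zero, and_false]
  refine ⟨fun i j => (W.filter (fun x => x ≤ U i j)).card, W.card, δ, ?_, ?_, ?_, ?_, ?_, ?_⟩
  · refine ⟨?_, ?_, ?_⟩
    · intro i j
      rw [card_eq_zero, filter_eq_empty_iff]
      constructor
      · intro h
        by_contra hij
        exact h ((hWm _).2 ⟨⟨i, j, rfl⟩, hpos i j hij⟩) le_rfl
      · rintro rfl x hx hx'
        rw [h0] at hx'
        exact absurd ((hWm _).1 hx).2 (not_lt.2 hx')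
    · intro i j
      simp only [hsymm i j]
    · intro i j k
      rcases le_max_iff.1 (hult i j k) with h | h
      · refine le_max_of_le_left (card_le_card ?_)
        intro x hx
        rw [mem_filter] at hx ⊢
        exact ⟨hx.1, hx.2.trans h⟩
      · refine le_max_of_le_right (card_le_card ?_)
        intro x hx
        rw [mem_filter] at hx ⊢
        exact ⟨hx.1, hx.2.trans h⟩
  · intro i j
    exact card_le_card (filter_subset _ _)
  · simp [hδ]
  · intro k
    rcases k with _ | k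
    · simp [hδ]
    · rw [hδs]
      split_ifs with h
      · exact (hepos _).le
      · positivity
  · intro k hk
    obtain ⟨k, rfl⟩ : ∃ k', k = k' + 1 := ⟨k - 1, by omega⟩
    rw [hδs, hδs]
    split_ifs with h1 h2 h2
    · refine hesep _ _ ?_
      rw [Fin.lt_def]
      exact Nat.lt_succ_self k
    · have h3 := heM ⟨k, h1⟩
      have h4 : (1 : ℝ) ≤ lam ^ (k + 1) := one_le_pow₀ hlam
      calc lam * e ⟨k, h1⟩ ≤ lam * M := mul_le_mul_of_nonneg_left h3 hlam0
        _ = lam * M * 1 := by ring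
        _ ≤ lam * M * lam ^ (k + 1) := mul_le_mul_of_nonneg_left h4 (by positivity)
        _ = M * lam ^ (k + 1 + 1) := by ring
    · omega
    · refine le_of_eq ?_
      ring
  · intro i j
    change δ (W.filter (fun x => x ≤ U i j)).card = U i j
    by_cases hij : i = j
    · subst hij
      have h1 : (W.filter (fun x => x ≤ U i i)).card = 0 := by
        rw [card_eq_zero, filter_eq_empty_iff]
        intro x hx hx'
        rw [h0] at hx'
        exact absurd ((hWm _).1 hx).2 (not_lt.2 hx')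
      rw [h1, h0]
      simp [hδ]
    · have h1 : U i j ∈ W := (hWm _).2 ⟨⟨i, j, rfl⟩, hpos i j hij⟩
      have h2 : U i j ∈ Set.range e := by
        rw [he, range_orderEmbOfFin]
        exact h1
      obtain ⟨q, hq⟩ := h2
      have h3 : W.filter (fun x => x ≤ U i j) = (Iic q).image e := by
        ext x
        rw [mem_filter, mem_image]
        constructor
        · rintro ⟨hx, hx'⟩
          have h4 : x ∈ Set.range e := by
            rw [he, range_orderEmbOfFin]
            exact hx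
          obtain ⟨q', hq'⟩ := h4
          refine ⟨q', ?_, hq'⟩
          rw [mem_Iic]
          rw [← hq', ← hq] at hx'
          exact e.le_iff_le.1 hx'
        · rintro ⟨q', hq', rfl⟩
          rw [mem_Iic] at hq'
          refine ⟨heW q', ?_⟩
          rw [← hq]
          exact e.le_iff_le.2 hq'
      rw [h3, card_image_of_injective _ e.injective, Fin.card_Iic, hδs, dif_pos q.2, ← hq]

/-- The algorithm for a finite ultrametric space of sites with separated values. -/
theorem algSep [Nonempty V] (U : V → V → ℝ) (h0 : ∀ i, U i i = 0)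
    (hpos : ∀ i j, i ≠ j → 0 < U i j)
    (hsymm : ∀ i j, U i j = U j i) (hult : ∀ i j k, U i k ≤ max (U i j) (U j k))
    (a c : V → ℕ) (hac : ∀ i, a i < c i) (N : ℕ)
    (hN : ∀ S : Finset V, (∀ j ∈ S, 2 * ∑ i ∈ S, ((c i : ℝ) - a i) ≤ a j) → S.card ≤ N)
    (hsep : ∀ i j k l, 0 < U i j → U i j < U k l →
      2 * (44 + 8 * Real.log ((N : ℝ) + 1)) * U i j ≤ U k l) :
    ∃ S : (ℕ → V) → ℕ → V, (∀ u u' t, (∀ r ≤ t, u r = u' r) → S u t = S u' t) ∧
      ∀ u n, n ≤ ∑ i, a i →
        (∀ i, ((range n).filter (fun r => S u r = i)).card ≤ c i) ∧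
        ∀ σ : ℕ → V, (∀ i, ((range n).filter (fun r => σ r = i)).card ≤ a i) →
          ∑ r ∈ range n, U (u r) (S u r) ≤
            4 * (44 + 8 * Real.log ((N : ℝ) + 1)) * ∑ r ∈ range n, U (u r) (σ r) := by
  have hlog : 0 ≤ Real.log ((N : ℝ) + 1) := Real.log_nonneg (by
    have : (0 : ℝ) ≤ N := Nat.cast_nonneg N
    linarith)
  obtain ⟨lev, K, δ, hlev, hK, hδz, hδ0, hδ, hU⟩ := rank U h0 hpos hsymm hult
    (2 * (44 + 8 * Real.log ((N : ℝ) + 1))) (by linarith) hsep
  obtain ⟨S, hS1, hS2⟩ := core hlev K hK δ hδz hδ0 a c hac N hN hδ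
  refine ⟨S, hS1, fun u n hn => ?_⟩
  obtain ⟨h1, h2⟩ := hS2 u n hn
  refine ⟨h1, fun σ hσ => ?_⟩
  have h3 := h2 σ hσ
  simpa only [hU] using h3

end Pool.Agent.H42U
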