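import Pool.Agent.Helper49.UM.Bnd

/-!
Displaced units that are spread in proportion to weights that depend on the current amount.
-/

namespace Pool.Agent.H42U

open Finset Pool.Agent.Helper49.UM

private theorem sum_pow_le (L : ℕ) : ∑ q ∈ range (L + 1), (4 * (2 : ℝ) ^ q) ≤ 8 * 2 ^ L := by
  induction L with
  | zero => simp; norm_num
  | succ L ih =>
    rw [Finset.sum_range_succ]
    have : (2 : ℝ) ^ (L + 1) = 2 * 2 ^ L := by rw [pow_succ']
    rw [this] at *
    linarith

/-- The bound for the total number of units above the slacks. -/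
theorem flow_bound {ι : Type} [DecidableEq ι] (Ch : Finset ι) (a e : ι → ℕ)
    (he : ∀ v ∈ Ch, 1 ≤ e v) (N : ℕ)
    (hF3 : ∀ Y ⊆ Ch, ∀ x : ℝ, 0 < x →
      ∑ v ∈ Y, min (a v : ℝ) x ≤ 3 * N * x + 4 * (N + 1) * ∑ v ∈ Y, (e v : ℝ))
    (n : ℕ) (f : ℕ → ι → ℕ) (X : ℕ → ℕ) (hX : Monotone X) (opn rc : ℕ → ι → Prop)
    (hopn : ∀ t t' v, t ≤ t' → opn t' v → opn t v)
    (hrc : ∀ t < n, ∀ v ∈ Ch, rc t v → opn t v)
    (hf0 : ∀ v, f 0 v = 0)
    (hfs : ∀ t < n, ∀ v ∈ Ch, (rc t v ∧ f (t + 1) v = f t v + 1) ∨ f (t + 1) v = f t v)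
    (F1 : ∀ t ≤ n, ∀ Y ⊆ Ch, (∀ v ∈ Y, opn t v) → ∑ v ∈ Y, f t v ≤ X t)
    (F2 : ∀ t < n, ∀ v0 ∈ Ch, rc t v0 → ∀ v ∈ Ch, opn t v →
      f t v0 * (8 * (N + 1) * e v + min (a v) (X t)) ≤
        f t v * (8 * (N + 1) * e v0 + min (a v0) (X t)))
    (F4 : ∀ v ∈ Ch, f n v ≤ a v + e v) :
    ∑ v ∈ Ch, max 0 ((f n v : ℝ) - e v) ≤ (26 + 8 * Real.log (8 * (N + 1))) * X n := by
  classical
  have hlast : ∀ v ∈ Ch, ∀ n' ≤ n, 1 ≤ f n' v → ∃ t < n', rc t v ∧ f n' v = f t v + 1 := by
    intro v hv n'
    induction n' with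
    | zero =>
      intro _ h
      rw [hf0] at h
      omega
    | succ n' ih =>
      intro hn h
      rcases hfs n' (by omega) v hv with h1 | h1
      · exact ⟨n', by omega, h1⟩
      · obtain ⟨t, ht, h2, h3⟩ := ih (by omega) (by omega)
        exact ⟨t, by omega, h2, by omega⟩
  set A := Ch.filter fun v => e v < f n v with hA
  have hAC : ∀ v ∈ A, v ∈ Ch := fun v hv => (mem_filter.1 hv).1
  have hAe : ∀ v ∈ A, e v < f n v := fun v hv => (mem_filter.1 hv).2
  have hex : ∀ v : ι, ∃ t, v ∈ A → t < n ∧ rc t v ∧ f n v = f t v + 1 := by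
    intro v
    by_cases hv : v ∈ A
    · obtain ⟨t, ht, h2, h3⟩ := hlast v (hAC v hv) n le_rfl (by have := hAe v hv; omega)
      exact ⟨t, fun _ => ⟨ht, h2, h3⟩⟩
    · exact ⟨0, fun h => absurd h hv⟩
  choose T hT using hex
  have hZ : ∑ v ∈ Ch, max 0 ((f n v : ℝ) - e v) = ∑ v ∈ A, ((f n v : ℝ) - e v) := by
    rw [hA, Finset.sum_filter]
    refine Finset.sum_congr rfl fun v _ => ?_
    split_ifs with h
    · have : (e v : ℝ) ≤ f n v := by exact_mod_cast h.le
      rw [max_eq_right (by linarith)]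
    · have : (f n v : ℝ) ≤ e v := by exact_mod_cast not_lt.1 h
      rw [max_eq_left (by linarith)]
  rw [hZ]
  set M : ℝ := (N : ℝ) + 1 with hM
  have hN0 : (0 : ℝ) ≤ N := Nat.cast_nonneg N
  have hM1 : 1 ≤ M := by rw [hM]; linarith
  have hlogQ : 0 ≤ Real.log (8 * M) := Real.log_nonneg (by linarith)
  rcases A.eq_empty_or_nonempty with hAE | hAne
  · rw [hAE, Finset.sum_empty]
    positivity
  -- basic facts for the elements of `A`
  have hXT : ∀ v ∈ A, X (T v) ≤ X n := fun v hv => hX (hT v hv).1.le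
  have hh : ∀ v ∈ A, f (T v) v ≤ X (T v) := by
    intro v hv
    have h1 := F1 (T v) (hT v hv).1.le {v} (by simpa using hAC v hv) (by
      intro w hw
      rw [mem_singleton] at hw
      rw [hw]
      exact hrc _ (hT v hv).1 v (hAC v hv) (hT v hv).2.1)
    simpa using h1
  have heh : ∀ v ∈ A, e v ≤ f (T v) v := by
    intro v hv
    have h1 := (hT v hv).2.2
    have h2 := hAe v hv
    omega
  have hX1 : ∀ v ∈ A, 1 ≤ X (T v) := fun v hv =>
    ((he v (hAC v hv)).trans (heh v hv)).trans (hh v hv)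
  have hXn1 : 1 ≤ X n := by
    obtain ⟨v, hv⟩ := hAne
    exact (hX1 v hv).trans (hXT v hv)
  have hXn1' : (1 : ℝ) ≤ X n := by exact_mod_cast hXn1
  set w : ι → ℝ := fun v => (e v : ℝ) + min (a v : ℝ) (X (T v)) / (8 * M) with hw
  set g : ι → ℝ := fun v => (f (T v) v : ℝ) / w v with hg
  have hmin0 : ∀ v, (0 : ℝ) ≤ min (a v : ℝ) (X (T v)) := fun v =>
    le_min (Nat.cast_nonneg _) (Nat.cast_nonneg _)
  have hw1 : ∀ v ∈ A, 1 ≤ w v := by
    intro v hv
    have h1 : (1 : ℝ) ≤ e v := by exact_mod_cast he v (hAC v hv)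
    have h2 : 0 ≤ min (a v : ℝ) (X (T v)) / (8 * M) := div_nonneg (hmin0 v) (by linarith)
    simp only [hw]
    linarith
  have hgw : ∀ v ∈ A, g v * w v = f (T v) v := by
    intro v hv
    simp only [hg]
    exact div_mul_cancel₀ _ (by have := hw1 v hv; linarith)
  -- the level estimate
  have hE : ∀ l : ℝ, 0 < l → l * ∑ v ∈ A.filter (fun v => l ≤ g v), w v ≤ 8 * X n := by
    intro l hl
    set B := A.filter (fun v => l ≤ g v) with hB
    have hBA : ∀ v ∈ B, v ∈ A := fun v hv => (mem_filter.1 hv).1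
    have hmaps : ∀ v ∈ B, Nat.log 2 (X (T v)) ∈ range (Nat.log 2 (X n) + 1) := by
      intro v hv
      rw [mem_range]
      exact Nat.lt_succ_of_le (Nat.log_mono_right (hXT v (hBA v hv)))
    rw [← Finset.sum_fiberwise_of_maps_to hmaps, Finset.mul_sum]
    have hq : ∀ q ∈ range (Nat.log 2 (X n) + 1),
        l * ∑ v ∈ B.filter (fun v => Nat.log 2 (X (T v)) = q), w v ≤ 4 * (2 : ℝ) ^ q := by
      intro q _
      set Bq := B.filter (fun v => Nat.log 2 (X (T v)) = q) with hBq
      have hBqA : ∀ v ∈ Bq, v ∈ A := fun v hv => hBA v (mem_filter.1 hv).1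
      rcases Bq.eq_empty_or_nonempty with hE0 | hne
      · rw [hE0, Finset.sum_empty, mul_zero]
        positivity
      obtain ⟨vs, hvs, hmin⟩ := Finset.exists_min_image Bq T hne
      have hvsA := hBqA vs hvs
      have hqv : ∀ v ∈ Bq, 2 ^ q ≤ X (T v) ∧ X (T v) < 2 ^ (q + 1) := by
        intro v hv
        have h1 : Nat.log 2 (X (T v)) = q := (mem_filter.1 hv).2
        have h2 : X (T v) ≠ 0 := by have := hX1 v (hBqA v hv); omega
        constructor
        · rw [← h1]
          exact Nat.pow_log_le_self 2 h2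
        · rw [← h1]
          exact Nat.lt_pow_succ_log_self (by norm_num) _
      have hts := (hT vs hvsA).1
      have hopen : ∀ v ∈ Bq, opn (T vs) v := fun v hv =>
        hopn _ _ v (hmin v hv) (hrc _ (hT v (hBqA v hv)).1 v (hAC v (hBqA v hv))
          (hT v (hBqA v hv)).2.1)
      have hlg : l ≤ g vs := (mem_filter.1 (mem_filter.1 hvs).1).2
      have hkey : ∀ v ∈ Bq, l * w v ≤ 2 * f (T vs) v := by
        intro v hv
        have h1 := F2 (T vs) hts vs (hAC vs hvsA) (hT vs hvsA).2.1 v (hAC v (hBqA v hv))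
          (hopen v hv)
        have h2 : (f (T vs) vs : ℝ) * (8 * M * e v + min (a v : ℝ) (X (T vs))) ≤
            f (T vs) v * (8 * M * e vs + min (a vs : ℝ) (X (T vs))) := by
          have h3 : ((f (T vs) vs * (8 * (N + 1) * e v + min (a v) (X (T vs))) : ℕ) : ℝ) ≤
            ((f (T vs) v * (8 * (N + 1) * e vs + min (a vs) (X (T vs))) : ℕ) : ℝ) := by
            exact_mod_cast h1
          push_cast at h3
          rw [hM]
          exact h3
        have h3 : 8 * M * (e vs : ℝ) + min (a vs : ℝ) (X (T vs)) = 8 * M * w vs := by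
          simp only [hw]
          field_simp
        have hwvs := hw1 vs hvsA
        have hMpos : 0 < 8 * M := by linarith
        rw [h3] at h2
        have h4 := hgw vs hvsA
        have h5 : l * w vs ≤ f (T vs) vs := by
          rw [← h4]
          exact mul_le_mul_of_nonneg_right hlg (by linarith)
        have h6 : 0 ≤ 8 * M * (e v : ℝ) + min (a v : ℝ) (X (T vs)) := by
          have : (0 : ℝ) ≤ min (a v : ℝ) (X (T vs)) :=
            le_min (Nat.cast_nonneg _) (Nat.cast_nonneg _)
          positivity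
        have h7 : l * w vs * (8 * M * e v + min (a v : ℝ) (X (T vs))) ≤
            f (T vs) v * (8 * M * w vs) := (mul_le_mul_of_nonneg_right h5 h6).trans h2
        have h8 : l * (8 * M * e v + min (a v : ℝ) (X (T vs))) ≤ f (T vs) v * (8 * M) := by
          have h9 : (l * (8 * M * e v + min (a v : ℝ) (X (T vs)))) * w vs ≤
              (f (T vs) v * (8 * M)) * w vs := by
            refine le_trans (le_of_eq ?_) (h7.trans (le_of_eq ?_)) <;> ring
          exact le_of_mul_le_mul_right h9 (by linarith)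
        -- compare the weights at the two times
        have h9 : (X (T v) : ℝ) ≤ 2 * X (T vs) := by
          have h10 := (hqv v hv).2
          have h11 := (hqv vs hvs).1
          rw [pow_succ] at h10
          have : X (T v) ≤ 2 * X (T vs) := by omega
          exact_mod_cast this
        have h10 : min (a v : ℝ) (X (T v)) ≤ 2 * min (a v : ℝ) (X (T vs)) := by
          have ha : (0 : ℝ) ≤ a v := Nat.cast_nonneg _
          rcases min_choice (a v : ℝ) (X (T vs)) with h11 | h11
          · rw [h11]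
            exact (min_le_left _ _).trans (by linarith)
          · rw [h11]
            exact (min_le_right _ _).trans h9
        have h11 : 8 * M * w v ≤ 2 * (8 * M * e v + min (a v : ℝ) (X (T vs))) := by
          have h12 : 8 * M * w v = 8 * M * e v + min (a v : ℝ) (X (T v)) := by
            simp only [hw]
            field_simp
          rw [h12]
          have : 0 ≤ 8 * M * (e v : ℝ) := by positivity
          linarith
        have h12 : 8 * M * (l * w v) ≤ 8 * M * (2 * f (T vs) v) := by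
          have h13 := mul_le_mul_of_nonneg_left h11 hl.le
          linarith
        exact le_of_mul_le_mul_left h12 hMpos
      calc l * ∑ v ∈ Bq, w v = ∑ v ∈ Bq, l * w v := by rw [Finset.mul_sum]
        _ ≤ ∑ v ∈ Bq, 2 * (f (T vs) v : ℝ) := Finset.sum_le_sum hkey
        _ = 2 * ∑ v ∈ Bq, (f (T vs) v : ℝ) := by rw [Finset.mul_sum]
        _ ≤ 2 * (X (T vs) : ℝ) := by
            have h1 := F1 (T vs) hts.le Bq (fun v hv => hAC v (hBqA v hv)) hopen
            have h2 : ∑ v ∈ Bq, (f (T vs) v : ℝ) ≤ X (T vs) := by exact_mod_cast h1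
            linarith
        _ ≤ 4 * 2 ^ q := by
            have h1 := (hqv vs hvs).2
            have h2 : (X (T vs) : ℝ) ≤ 2 ^ (q + 1) := by exact_mod_cast h1.le
            rw [pow_succ] at h2
            linarith
    refine (Finset.sum_le_sum hq).trans ((sum_pow_le _).trans ?_)
    have h1 := Nat.pow_log_le_self 2 (show X n ≠ 0 by omega)
    have h2 : (2 : ℝ) ^ (Nat.log 2 (X n)) ≤ X n := by exact_mod_cast h1
    linarith
  -- the weighted harmonic sum
  have hgQ : ∀ v ∈ A, g v ≤ 8 * M := by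
    intro v hv
    have hwv := hw1 v hv
    simp only [hg]
    rw [div_le_iff₀ (by linarith)]
    have h12 : 8 * M * w v = 8 * M * e v + min (a v : ℝ) (X (T v)) := by
      simp only [hw]
      field_simp
    rw [h12]
    have h1 : (f (T v) v : ℝ) ≤ X (T v) := by exact_mod_cast hh v hv
    have h2 : (f (T v) v : ℝ) + 1 ≤ a v + e v := by
      have h3 := F4 v (hAC v hv)
      have h4 := (hT v hv).2.2
      have h5 : f (T v) v + 1 ≤ a v + e v := by omega
      exact_mod_cast h5
    have h3 : (e v : ℝ) ≤ 8 * M * e v := by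
      have : (0 : ℝ) ≤ e v := Nat.cast_nonneg _
      nlinarith
    rcases min_choice (a v : ℝ) (X (T v)) with h11 | h11
    · rw [h11]
      linarith
    · rw [h11]
      have : (0 : ℝ) ≤ e v := Nat.cast_nonneg _
      linarith
  have hwt := weighted A w g (fun v hv => by have := hw1 v hv; linarith) (8 * X n)
    (by positivity) 1 (8 * M) one_pos (by linarith) hgQ hE
  rw [div_one] at hwt
  -- the sum of the slacks
  have hminX : ∀ v ∈ A, min (a v : ℝ) (X (T v)) ≤ min (a v : ℝ) (X n) := fun v hv =>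
    min_le_min le_rfl (by exact_mod_cast hXT v hv)
  have hEs : ∑ v ∈ A, (e v : ℝ) ≤ 17 * X n := by
    rw [← Finset.sum_filter_add_sum_filter_not A
      (fun v => min (a v : ℝ) (X (T v)) / (8 * M) ≤ e v)]
    have h1 : ∑ v ∈ A.filter (fun v => min (a v : ℝ) (X (T v)) / (8 * M) ≤ e v), (e v : ℝ) ≤
        16 * X n := by
      have h2 := hE (1 / 2) (by norm_num)
      have h3 : ∑ v ∈ A.filter (fun v => min (a v : ℝ) (X (T v)) / (8 * M) ≤ e v), (e v : ℝ) ≤
          ∑ v ∈ A.filter (fun v => 1 / 2 ≤ g v), w v := by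
        have h4 : A.filter (fun v => min (a v : ℝ) (X (T v)) / (8 * M) ≤ e v) ⊆
            A.filter (fun v => 1 / 2 ≤ g v) := by
          intro v hv
          rw [mem_filter] at hv ⊢
          refine ⟨hv.1, ?_⟩
          simp only [hg]
          rw [le_div_iff₀ (by have := hw1 v hv.1; linarith)]
          have h5 : (e v : ℝ) ≤ f (T v) v := by exact_mod_cast heh v hv.1
          have h6 : w v ≤ 2 * e v := by
            simp only [hw]
            linarith [hv.2]
          linarith
        refine le_trans (Finset.sum_le_sum fun v hv => ?_)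
          (Finset.sum_le_sum_of_subset_of_nonneg h4 fun v hv _ => ?_)
        · simp only [hw]
          have : 0 ≤ min (a v : ℝ) (X (T v)) / (8 * M) := div_nonneg (hmin0 v) (by linarith)
          linarith
        · have := hw1 v (mem_filter.1 hv).1
          linarith
      linarith
    have h2 : ∑ v ∈ A.filter (fun v => ¬ min (a v : ℝ) (X (T v)) / (8 * M) ≤ e v), (e v : ℝ) ≤
        X n := by
      set A2 := A.filter (fun v => ¬ min (a v : ℝ) (X (T v)) / (8 * M) ≤ e v) with hA2
      have h3 : ∑ v ∈ A2, 8 * M * (e v : ℝ) ≤ ∑ v ∈ A2, min (a v : ℝ) (X n) := by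
        refine Finset.sum_le_sum fun v hv => ?_
        have h4 := not_le.1 (mem_filter.1 hv).2
        rw [lt_div_iff₀ (by linarith)] at h4
        have := hminX v (mem_filter.1 hv).1
        linarith
      have h4 := hF3 A2 (fun v hv => hAC v (mem_filter.1 hv).1) (X n) (by linarith)
      rw [← Finset.mul_sum] at h3
      have h5 : 0 ≤ ∑ v ∈ A2, (e v : ℝ) := Finset.sum_nonneg fun v _ => Nat.cast_nonneg _
      have h6 : 4 * M * ∑ v ∈ A2, (e v : ℝ) ≤ 4 * M * (X n : ℝ) := by
        have h7 : 3 * (N : ℝ) * X n ≤ 4 * M * X n := by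
          apply mul_le_mul_of_nonneg_right _ (by linarith)
          linarith
        linarith
      exact le_of_mul_le_mul_left h6 (by linarith)
    linarith
  have hcard1 : (A.card : ℝ) = ∑ v ∈ A, (1 : ℝ) := by simp
  have hcard : (A.card : ℝ) ≤ ∑ v ∈ A, (e v : ℝ) := by
    rw [hcard1]
    refine Finset.sum_le_sum fun v hv => ?_
    exact_mod_cast he v (hAC v hv)
  have hms : ∑ v ∈ A, min (a v : ℝ) (X (T v)) / (8 * M) ≤ 9 * X n := by
    rw [← Finset.sum_div, div_le_iff₀ (by linarith)]
    have h1 := hF3 A hAC (X n) (by linarith)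
    have h2 : ∑ v ∈ A, min (a v : ℝ) (X (T v)) ≤ ∑ v ∈ A, min (a v : ℝ) (X n) :=
      Finset.sum_le_sum hminX
    have h3 : 4 * M * ∑ v ∈ A, (e v : ℝ) ≤ 4 * M * (17 * X n) :=
      mul_le_mul_of_nonneg_left hEs (by linarith)
    have h4 : 3 * (N : ℝ) * X n ≤ 3 * M * X n := by
      apply mul_le_mul_of_nonneg_right _ (by linarith)
      linarith
    have h5 : 0 ≤ M * (X n : ℝ) := by positivity
    linarith
  have hmain : ∑ v ∈ A, ((f n v : ℝ) - e v) ≤
      ∑ v ∈ A, w v * max 0 (g v - 1) + ∑ v ∈ A, min (a v : ℝ) (X (T v)) / (8 * M) +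
        A.card := by
    rw [hcard1, ← Finset.sum_add_distrib, ← Finset.sum_add_distrib]
    refine Finset.sum_le_sum fun v hv => ?_
    have h1 : (f n v : ℝ) = f (T v) v + 1 := by exact_mod_cast (hT v hv).2.2
    have h2 : w v * (g v - 1) ≤ w v * max 0 (g v - 1) :=
      mul_le_mul_of_nonneg_left (le_max_right _ _) (by have := hw1 v hv; linarith)
    have h3 := hgw v hv
    have h4 : w v * (g v - 1) = f (T v) v - w v := by rw [← h3]; ring
    have h5 : w v = (e v : ℝ) + min (a v : ℝ) (X (T v)) / (8 * M) := rfl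
    rw [h1]
    linarith
  have hfinal : (26 + 8 * Real.log (8 * M)) * (X n : ℝ) =
      8 * X n * Real.log (8 * M) + 9 * X n + 17 * X n := by ring
  rw [hfinal]
  linarith

end Pool.Agent.H42U
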