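import Pool.Agent.Helper49.UM.Step
import Pool.Agent.Helper49.UM.Star

/-!
Admissible sites for weights that depend on the time.
-/

namespace Pool.Agent.H42U

open Finset Pool.Agent.Helper8.OT Pool.Agent.Helper49.UM

variable {V : Type} [Fintype V] [DecidableEq V]

/-- The site `x` is admissible for the request number `t`; `wt k i` is the weight of the cluster of
level `k` of `i` at this time. -/
structure OKw (lev : V → V → ℕ) (c : V → ℕ) (wt : ℕ → V → ℕ) (u s : ℕ → V) (t : ℕ) (x : V) :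
    Prop where
  free : ld s t {x} < c x
  own : ∀ k, x ∉ cl lev k (u t) → ld s t (cl lev k (u t)) = ∑ i ∈ cl lev k (u t), c i
  bal : ∀ k i, u t ∉ cl lev k x → lev i x ≤ k + 1 →
    ld s t (cl lev k i) < ∑ j ∈ cl lev k i, c j →
    fl u s t (cl lev k x) * wt k i ≤ fl u s t (cl lev k i) * wt k x

/-- Forgetting the weights. -/
theorem OKw.ok {lev : V → V → ℕ} {c : V → ℕ} {wt : ℕ → V → ℕ} {u s : ℕ → V} {t : ℕ} {x : V}
    (h : OKw lev c wt u s t x) : OK lev c (fun _ => 0) u s t x :=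
  ⟨h.free, h.own, fun k i _ _ _ => by simp⟩

private theorem descend {lev : V → V → ℕ} (hlev : IsUlt lev) (c : V → ℕ) (wt : ℕ → V → ℕ)
    (hwt : ∀ k i, 0 < wt k i) (hwt2 : ∀ k i j, cl lev k i = cl lev k j → wt k i = wt k j)
    (u s : ℕ → V) (t : ℕ) : ∀ k i, ld s t (cl lev k i) < ∑ j ∈ cl lev k i, c j →
    ∃ x ∈ cl lev k i, ld s t {x} < c x ∧ ∀ k' < k, ∀ j, lev j x ≤ k' + 1 →
      ld s t (cl lev k' j) < ∑ l ∈ cl lev k' j, c l →
      fl u s t (cl lev k' x) * wt k' j ≤ fl u s t (cl lev k' j) * wt k' x := by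
  intro k
  induction k with
  | zero =>
    intro i hi
    rw [cl_zero hlev, sum_singleton] at hi
    refine ⟨i, self_mem_cl hlev 0 i, hi, fun k' hk' => absurd hk' (Nat.not_lt_zero k')⟩
  | succ k ih =>
    intro i hi
    have hex : ∃ j ∈ cl lev (k + 1) i, ld s t (cl lev k j) < ∑ l ∈ cl lev k j, c l := by
      by_contra hcon
      push Not at hcon
      have h1 : ∀ v ∈ children lev k (cl lev (k + 1) i),
          ∑ l ∈ v, (c l : ℝ) ≤ ∑ l ∈ v, (ld s t {l} : ℝ) := by
        intro v hv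
        unfold children at hv
        rw [mem_image] at hv
        obtain ⟨j, hj, hjv⟩ := hv
        have h2 := hcon j hj
        rw [hjv, ld_sum] at h2
        exact_mod_cast h2
      have h3 := sum_le_sum h1
      rw [sum_children hlev (cl_mem_clusters lev (k + 1) i),
        sum_children hlev (cl_mem_clusters lev (k + 1) i)] at h3
      have h4 : ∑ l ∈ cl lev (k + 1) i, c l ≤ ∑ l ∈ cl lev (k + 1) i, ld s t {l} := by
        exact_mod_cast h3
      rw [← ld_sum] at h4
      exact absurd hi (not_lt.2 h4)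
    have hω' : ∀ j, (0 : ℚ) < ((wt k j : ℕ) : ℚ) := by
      intro j
      exact_mod_cast hwt k j
    obtain ⟨j1, hj1, hj1'⟩ := hex
    have hne : ((cl lev (k + 1) i).filter
        (fun j => ld s t (cl lev k j) < ∑ l ∈ cl lev k j, c l)).Nonempty :=
      ⟨j1, mem_filter.2 ⟨hj1, hj1'⟩⟩
    obtain ⟨j0, hj0, hmin⟩ := exists_min_image _
      (fun j => (fl u s t (cl lev k j) : ℚ) / ((wt k j : ℕ) : ℚ)) hne
    rw [mem_filter] at hj0
    obtain ⟨x, hx, hfree, hbal⟩ := ih j0 hj0.2
    have hxj : cl lev k x = cl lev k j0 := cl_eq hlev hx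
    have hP : cl lev (k + 1) j0 = cl lev (k + 1) i := cl_eq hlev hj0.1
    have hxP : x ∈ cl lev (k + 1) i := by
      rw [← hP]
      exact cl_mono (Nat.le_succ k) j0 hx
    refine ⟨x, hxP, hfree, fun k' hk' j hj hopen => ?_⟩
    rcases Nat.lt_succ_iff_lt_or_eq.1 hk' with h | h
    · exact hbal k' h j hj hopen
    · subst h
      have hjP : j ∈ cl lev (k' + 1) i := by
        rw [← cl_eq hlev hxP, mem_cl, hlev.symm]
        exact hj
      have h5 := hmin j (mem_filter.2 ⟨hjP, hopen⟩)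
      rw [div_le_div_iff₀ (hω' j0) (hω' j)] at h5
      rw [hxj, hwt2 k' x j0 hxj]
      exact_mod_cast h5

theorem exists_okw {lev : V → V → ℕ} (hlev : IsUlt lev) (K : ℕ)
    (hK : ∀ i j, lev i j ≤ K) (c : V → ℕ) (wt : ℕ → V → ℕ)
    (hwt : ∀ k i, 0 < wt k i) (hwt2 : ∀ k i j, cl lev k i = cl lev k j → wt k i = wt k j)
    (u s : ℕ → V) (t : ℕ) (hc : ∀ i, ld s t {i} ≤ c i) (ht : t < ∑ i, c i) :
    ∃ x, OKw lev c wt u s t x := by
  have hle : ∀ v : Finset V, ld s t v ≤ ∑ i ∈ v, c i := by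
    intro v
    rw [ld_sum]
    exact sum_le_sum fun i _ => hc i
  have hex : ∃ k, ld s t (cl lev k (u t)) < ∑ j ∈ cl lev k (u t), c j := by
    refine ⟨K, ?_⟩
    have h1 : cl lev K (u t) = univ := by
      ext x
      rw [mem_cl]
      exact ⟨fun _ => mem_univ x, fun _ => hK _ _⟩
    have h2 : ld s t univ = t := by
      unfold ld
      simp
    rw [h1, h2]
    exact ht
  classical
  have hk0 := Nat.find_spec hex
  obtain ⟨x, hx, hfree, hbal⟩ := descend hlev c wt hwt hwt2 u s t (Nat.find hex) (u t) hk0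
  refine ⟨x, hfree, fun k hk => ?_, fun k i hk hi hopen => ?_⟩
  · have h1 : k < Nat.find hex := by
      by_contra hcon
      exact hk (cl_mono (not_lt.1 hcon) (u t) hx)
    exact le_antisymm (hle _) (not_lt.1 (Nat.find_min hex h1))
  · have h1 : k < Nat.find hex := by
      by_contra hcon
      apply hk
      rw [mem_cl, hlev.symm]
      exact (mem_cl.1 hx).trans (not_lt.1 hcon)
    exact hbal k h1 i hi hopen

end Pool.Agent.H42U
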