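import Pool.Agent.H42U.Flow
import Pool.Agent.H42U.Stp
import Pool.Agent.H42T.Count

/-!
The balance inequality of the clusters for the time-dependent weights.
-/

namespace Pool.Agent.H42U

open Finset Pool.Agent.Helper8.OT Pool.Agent.Helper49.UM

variable {V : Type} [Fintype V] [DecidableEq V]

/-- The amount of the cluster `P` of level `k + 1`: excess of its children and inflow. -/
def amt (lev : V → V → ℕ) (a : V → ℕ) (u s : ℕ → V) (k : ℕ) (P : Finset V) (t : ℕ) : ℕ :=
  ∑ v ∈ children lev k P, (ld u t v - ∑ i ∈ v, a i) + fl u s t P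

/-- The weight of the cluster of level `k` of `i` at time `t`. -/
def wgt (lev : V → V → ℕ) (a c : V → ℕ) (N : ℕ) (u s : ℕ → V) (t k : ℕ) (i : V) : ℕ :=
  8 * (N + 1) * ∑ j ∈ cl lev k i, (c j - a j) +
    min (∑ j ∈ cl lev k i, a j) (amt lev a u s k (cl lev (k + 1) i) t)

theorem wgt_pos {lev : V → V → ℕ} (hlev : IsUlt lev) {a c : V → ℕ} (hac : ∀ i, a i < c i)
    (N : ℕ) (u s : ℕ → V) (t k : ℕ) (i : V) : 0 < wgt lev a c N u s t k i := by
  unfold wgt
  have h1 : 0 < ∑ j ∈ cl lev k i, (c j - a j) :=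
    sum_pos (fun j _ => Nat.sub_pos_of_lt (hac j)) ⟨i, self_mem_cl hlev k i⟩
  have h2 : 0 < 8 * (N + 1) * ∑ j ∈ cl lev k i, (c j - a j) := by positivity
  omega

theorem wgt_congr {lev : V → V → ℕ} (hlev : IsUlt lev) (a c : V → ℕ) (N : ℕ) (u s : ℕ → V)
    (t k : ℕ) (i j : V) (h : cl lev k i = cl lev k j) :
    wgt lev a c N u s t k i = wgt lev a c N u s t k j := by
  have h1 : j ∈ cl lev k i := by
    rw [h]
    exact self_mem_cl hlev k j
  have h2 : cl lev (k + 1) j = cl lev (k + 1) i := cl_eq hlev (cl_mono (Nat.le_succ k) i h1)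
  unfold wgt
  rw [h, h2]

private theorem ld_mono (s : ℕ → V) (v : Finset V) {t t' : ℕ} (h : t ≤ t') :
    ld s t v ≤ ld s t' v := by
  induction t', h using Nat.le_induction with
  | base => exact le_rfl
  | succ k _ ih => exact ih.trans (ld_le_succ s k v)

private theorem amt_mono (lev : V → V → ℕ) (a : V → ℕ) (u s : ℕ → V) (k : ℕ) (P : Finset V) :
    Monotone (amt lev a u s k P) := by
  apply monotone_nat_of_le_succ
  intro t
  unfold amt
  refine Nat.add_le_add (sum_le_sum fun v _ => ?_) (fl_le_succ u s t P)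
  exact Nat.sub_le_sub_right (ld_le_succ u t v) _

private theorem cast_trunc (x y : ℕ) : ((x - y : ℕ) : ℝ) = max 0 ((x : ℝ) - y) := by
  rcases le_total y x with h | h
  · have : (y : ℝ) ≤ x := by exact_mod_cast h
    rw [Nat.cast_sub h, max_eq_right (by linarith)]
  · have : (x : ℝ) ≤ y := by exact_mod_cast h
    rw [Nat.sub_eq_zero_of_le h, Nat.cast_zero, max_eq_left (by linarith)]

theorem amt_cast (lev : V → V → ℕ) (a : V → ℕ) (u s : ℕ → V) (k : ℕ) (P : Finset V) (t : ℕ) :
    (amt lev a u s k P t : ℝ) =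
      ∑ v ∈ children lev k P, max 0 ((ld u t v : ℝ) - ∑ i ∈ v, (a i : ℝ)) + fl u s t P := by
  unfold amt
  rw [Nat.cast_add, Nat.cast_sum]
  congr 1
  refine sum_congr rfl fun v _ => ?_
  rw [cast_trunc, Nat.cast_sum]

private theorem ld_le_sum' {lev : V → V → ℕ} {c ω : V → ℕ} {u s : ℕ → V} {t : ℕ}
    (h : ∀ r < t, OK lev c ω u s r (s r)) (v : Finset V) : ld s t v ≤ ∑ i ∈ v, c i := by
  rw [ld_sum]
  exact sum_le_sum (fun i _ => ok_le h i)

private theorem open_le {lev : V → V → ℕ} (hlev : IsUlt lev) {a c ω : V → ℕ}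
    (hac : ∀ i, a i ≤ c i)
    {u s : ℕ → V} {t : ℕ} (h : ∀ r < t, OK lev c ω u s r (s r)) {k : ℕ} {P : Finset V}
    (hP : P ∈ clusters lev (k + 1)) (Y : Finset (Finset V)) (hY : Y ⊆ children lev k P)
    (hYo : ∀ v ∈ Y, ld s t v < ∑ i ∈ v, c i) :
    ∑ v ∈ Y, (fl u s t v : ℝ) ≤
      ∑ v ∈ children lev k P, max 0 ((ld u t v : ℝ) - ∑ i ∈ v, (a i : ℝ)) + fl u s t P := by
  have h1 := sum_fl_le hlev u s t hP
  have h2 : ∑ v ∈ Y, (fl u s t v : ℝ) ≤ ∑ v ∈ children lev k P, ((fl u s t v : ℝ) - ou u s t v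
        + max 0 ((ld u t v : ℝ) - ∑ i ∈ v, (a i : ℝ))) := by
    have h3 : ∑ v ∈ Y, (fl u s t v : ℝ) =
        ∑ v ∈ children lev k P, (if v ∈ Y then (fl u s t v : ℝ) else 0) := by
      rw [← sum_filter]
      congr 1
      ext v
      rw [mem_filter]
      exact ⟨fun h => ⟨hY h, h⟩, fun h => h.2⟩
    rw [h3]
    refine sum_le_sum ?_
    intro v hv
    have hm : (0 : ℝ) ≤ max 0 ((ld u t v : ℝ) - ∑ i ∈ v, (a i : ℝ)) := le_max_left _ _
    by_cases hvY : v ∈ Y
    · rw [if_pos hvY]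
      have hf := hYo v hvY
      have ho : ou u s t v = 0 := by
        by_contra hne
        have := ok_full hlev h (children_subset hv) (Nat.pos_of_ne_zero hne)
        omega
      rw [ho]
      push_cast
      linarith
    · rw [if_neg hvY]
      by_cases hf : ld s t v < ∑ i ∈ v, c i
      · have ho : ou u s t v = 0 := by
          by_contra hne
          have := ok_full hlev h (children_subset hv) (Nat.pos_of_ne_zero hne)
          omega
        rw [ho]
        have : (0 : ℝ) ≤ fl u s t v := Nat.cast_nonneg _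
        push_cast
        linarith
      · have hle := ld_le_sum' h v
        have heq : ld s t v = ∑ i ∈ v, c i := by omega
        have h3 : (ld s t v : ℝ) + ou u s t v = ld u t v + fl u s t v := by
          exact_mod_cast ld_add_ou u s t v
        have h4 : (ld s t v : ℝ) = ∑ i ∈ v, (c i : ℝ) := by
          rw [heq]
          push_cast
          rfl
        have h5 : ∑ i ∈ v, (a i : ℝ) ≤ ∑ i ∈ v, (c i : ℝ) :=
          sum_le_sum (fun i _ => by exact_mod_cast hac i)
        have h6 : (ld u t v : ℝ) - ∑ i ∈ v, (a i : ℝ) ≤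
            max 0 ((ld u t v : ℝ) - ∑ i ∈ v, (a i : ℝ)) := le_max_right _ _
        linarith
  rw [sum_add_distrib, sum_sub_distrib] at h2
  linarith

private theorem min_sum_le' {ι : Type*} (Y : Finset ι) (a : ι → ℝ) (x : ℝ)
    (ha : ∀ i, 0 ≤ a i) (hx : 0 ≤ x) : min (∑ i ∈ Y, a i) x ≤ ∑ i ∈ Y, min (a i) x := by
  by_cases h : ∃ i ∈ Y, x ≤ a i
  · obtain ⟨i, hi, hxi⟩ := h
    have h1 : min (a i) x ≤ ∑ i ∈ Y, min (a i) x :=
      Finset.single_le_sum (f := fun i => min (a i) x) (fun j _ => le_min (ha j) hx) hi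
    rw [min_eq_right hxi] at h1
    exact (min_le_right _ _).trans h1
  · push Not at h
    rw [Finset.sum_congr rfl fun i hi => min_eq_left (h i hi).le]
    exact min_le_left _ _

/-- The counting inequality for clusters. -/
private theorem count_clusters {lev : V → V → ℕ} (hlev : IsUlt lev) {a c : V → ℕ}
    (hac : ∀ i, a i < c i) {N : ℕ}
    (hN : ∀ S : Finset V, (∀ j ∈ S, 2 * ∑ i ∈ S, ((c i : ℝ) - a i) ≤ a j) → S.card ≤ N)
    {k : ℕ} {P : Finset V} (Y : Finset (Finset V)) (hY : Y ⊆ children lev k P) (x : ℝ)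
    (hx : 0 < x) :
    ∑ v ∈ Y, min ((∑ i ∈ v, a i : ℕ) : ℝ) x ≤
      3 * N * x + 4 * (N + 1) * ∑ v ∈ Y, ((∑ i ∈ v, (c i - a i) : ℕ) : ℝ) := by
  have hd : (↑Y : Set (Finset V)).PairwiseDisjoint id := by
    intro v hv w hw hne
    refine disjoint_left.mpr ?_
    intro i hi hi'
    exact hne (clusters_eq hlev (children_subset (hY hv)) (children_subset (hY hw)) hi hi')
  have h1 : ∀ g : V → ℝ, ∑ v ∈ Y, ∑ i ∈ v, g i = ∑ i ∈ Y.biUnion id, g i := by
    intro g
    rw [sum_biUnion hd]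
    rfl
  have h2 : ∑ v ∈ Y, min ((∑ i ∈ v, a i : ℕ) : ℝ) x ≤ ∑ v ∈ Y, ∑ i ∈ v, min (a i : ℝ) x := by
    refine sum_le_sum fun v _ => ?_
    rw [Nat.cast_sum]
    exact min_sum_le' v (fun i => (a i : ℝ)) x (fun i => Nat.cast_nonneg _) hx.le
  have h3 : ∑ v ∈ Y, ((∑ i ∈ v, (c i - a i) : ℕ) : ℝ) = ∑ v ∈ Y, ∑ i ∈ v, ((c i : ℝ) - a i) := by
    refine sum_congr rfl fun v _ => ?_
    rw [Nat.cast_sum]
    exact sum_congr rfl fun i _ => Nat.cast_sub (hac i).le
  rw [h3, h1]
  refine h2.trans ?_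
  rw [h1]
  exact Pool.Agent.H42T.sum_min_le (α := fun i => (a i : ℝ)) (e := fun i => (c i : ℝ) - a i)
    (fun i => by have : (a i : ℝ) < c i := by exact_mod_cast hac i
                 linarith)
    (fun i => by
      rcases Nat.eq_zero_or_pos (a i) with h | h
      · left; simp [h]
      · right; exact_mod_cast h) hN _ x hx

/-- The balance inequality. -/
theorem bal_le {lev : V → V → ℕ} (hlev : IsUlt lev) {a c : V → ℕ} (hac : ∀ i, a i < c i) {N : ℕ}
    (hN : ∀ S : Finset V, (∀ j ∈ S, 2 * ∑ i ∈ S, ((c i : ℝ) - a i) ≤ a j) → S.card ≤ N)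
    {u s : ℕ → V} {n : ℕ}
    (h : ∀ r < n, OKw lev c (wgt lev a c N u s r) u s r (s r)) {k : ℕ} {P : Finset V}
    (hP : P ∈ clusters lev (k + 1)) :
    ∑ v ∈ children lev k P, max 0 ((fl u s n v : ℝ) - ∑ i ∈ v, ((c i : ℝ) - a i)) ≤
      (26 + 8 * Real.log (8 * (N + 1))) *
        (∑ v ∈ children lev k P, max 0 ((ld u n v : ℝ) - ∑ i ∈ v, (a i : ℝ)) + fl u s n P) := by
  have hok : ∀ t ≤ n, ∀ r < t, OK lev c (fun _ => 0) u s r (s r) := fun t ht r hr =>
    (h r (hr.trans_le ht)).ok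
  have hne : ∀ v ∈ children lev k P, v.Nonempty := by
    intro v hv
    unfold children at hv
    rw [mem_image] at hv
    obtain ⟨b, -, rfl⟩ := hv
    exact ⟨b, self_mem_cl hlev k b⟩
  have key := flow_bound (children lev k P) (fun v => ∑ i ∈ v, a i)
    (fun v => ∑ i ∈ v, (c i - a i))
    (by
      intro v hv
      exact Nat.succ_le_of_lt (sum_pos (fun i _ => Nat.sub_pos_of_lt (hac i)) (hne v hv)))
    N (fun Y hY x hx => count_clusters hlev hac hN Y hY x hx)
    n (fun t v => fl u s t v) (amt lev a u s k P) (amt_mono lev a u s k P)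
    (fun t v => ld s t v < ∑ i ∈ v, c i) (fun t v => u t ∉ v ∧ s t ∈ v)
    (fun t t' v htt' h' => lt_of_le_of_lt (ld_mono s v htt') h')
    (by
      intro t ht v _ hrc
      have h1 : ld s t v < ∑ i ∈ v, c i := by
        rw [ld_sum]
        exact sum_lt_sum (fun i _ => ok_le (hok t ht.le) i) ⟨s t, hrc.2, (h t ht).free⟩
      exact h1)
    (fun v => by simp)
    (by
      intro t _ v _
      by_cases hc : u t ∉ v ∧ s t ∈ v
      · left
        refine ⟨hc, ?_⟩
        simp only [fl_succ, if_pos hc]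
      · right
        simp only [fl_succ, if_neg hc, add_zero])
    (by
      intro t ht Y hY hYo
      have h1 := open_le hlev (fun i => (hac i).le) (hok t ht) hP Y hY hYo
      rw [← amt_cast] at h1
      exact_mod_cast h1)
    (by
      intro t ht v0 hv0 hrc v hv hvo
      have hOK := h t ht
      have hv0P : v0 ⊆ P := ((mem_children hlev hP).mp hv0).2
      have hsP : s t ∈ P := hv0P hrc.2
      have hv0eq : v0 = cl lev k (s t) := mem_clusters hlev (children_subset hv0) hrc.2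
      have hPs : P = cl lev (k + 1) (s t) := mem_clusters hlev hP hsP
      have hvim := hv
      unfold children at hvim
      rw [mem_image] at hvim
      obtain ⟨i, hiP, hi⟩ := hvim
      have hPi : P = cl lev (k + 1) i := mem_clusters hlev hP hiP
      have hlevi : lev i (s t) ≤ k + 1 := by
        rw [← mem_cl, ← hPi]
        exact hsP
      have hb := hOK.bal k i (by rw [← hv0eq]; exact hrc.1) hlevi (by rw [hi]; exact hvo)
      unfold wgt at hb
      rw [← hPs, ← hPi, ← hv0eq, hi] at hb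
      exact hb)
    (by
      intro v hv
      have h1 := fl_le_ld u s n v
      have h2 := ld_le_sum' (hok n le_rfl) v
      have h3 : ∑ i ∈ v, a i + ∑ i ∈ v, (c i - a i) = ∑ i ∈ v, c i := by
        rw [← sum_add_distrib]
        exact sum_congr rfl fun i _ => by have := hac i; omega
      omega)
  rw [amt_cast] at key
  refine le_trans (le_of_eq ?_) key
  refine sum_congr rfl fun v _ => ?_
  have h1 : ∑ i ∈ v, ((c i : ℝ) - a i) = ((∑ i ∈ v, (c i - a i) : ℕ) : ℝ) := by
    rw [Nat.cast_sum]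
    exact sum_congr rfl fun i _ => (Nat.cast_sub (hac i).le).symm
  rw [h1]

end Pool.Agent.H42U
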